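import Pool.Agent.H51.RZ.FB2

/-!
# RZ, module FB1: the fibre over a cubic of type `T12`, with a common isotropic vector

The isotropic lines of the antidiagonal form are `Option k`: `none` is `e_0`, `some r` is
`zz r 1`.  For each line there are at most `q (q - 1)` matrices of the fibre for which it is
isotropic; each matrix with a common isotropic line has at least two of them.
-/

set_option autoImplicit false

namespace Pool.RZ

open Polynomial Matrix Pool.AVR Pool.AVS

namespace FB1

variable {k : Type} [Field k]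

/-- An isometry (of determinant `-1`) sending `e_0` to `zz r 1`. -/
def gg (r : k) : Matrix (Fin 3) (Fin 3) k := !![r ^ 2, 2 * r, -2; r, 1, 0; -1 / 2, 0, 0]

/-- The transformed matrix. -/
def tr (r : k) (B : Matrix (Fin 3) (Fin 3) k) : Matrix (Fin 3) (Fin 3) k :=
  (gg r)ᵀ * B * gg r

/-- The value of the form at `zz r 1`. -/
def vl (B : Matrix (Fin 3) (Fin 3) k) (r : k) : k := bil B (zz r 1) (zz r 1)

lemma bil_eq (B : Matrix (Fin 3) (Fin 3) k) (hB : Bᵀ = B) (z : Fin 3 → k) :
    bil B z z = B 0 0 * z 0 ^ 2 + 2 * B 0 1 * (z 0 * z 1) + 2 * B 0 2 * (z 0 * z 2) +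
      B 1 1 * z 1 ^ 2 + 2 * B 1 2 * (z 1 * z 2) + B 2 2 * z 2 ^ 2 := by
  obtain ⟨h1, h2, h3⟩ := FB2.sym hB
  simp only [bil, Matrix.mulVec, dotProduct, Fin.sum_univ_three]
  rw [h1, h2, h3]
  ring

lemma gg_inj (h2 : (2 : k) ≠ 0) (r : k) : Function.Injective (tr r) := by
  intro B B' h
  have hu : IsUnit (gg r).det := by
    have : (gg r).det = -1 := by
      simp [gg, Matrix.det_fin_three]
      field_simp
    rw [this]
    exact isUnit_one.neg
  have hu' : IsUnit ((gg r)ᵀ).det := by rwa [Matrix.det_transpose]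
  unfold tr at h
  have h3 : (gg r)ᵀ * B = (gg r)ᵀ * B' := by
    have := congrArg (fun M => M * (gg r)⁻¹) h
    simpa [Matrix.mul_assoc, Matrix.mul_nonsing_inv _ hu] using this
  have := congrArg (fun M => ((gg r)ᵀ)⁻¹ * M) h3
  simpa [← Matrix.mul_assoc, Matrix.nonsing_inv_mul _ hu'] using this

lemma tr00 (B : Matrix (Fin 3) (Fin 3) k) (r : k) : tr r B 0 0 = vl B r := by
  simp only [tr, vl, gg, bil, zz, Matrix.mulVec, dotProduct, Fin.sum_univ_three,
    Matrix.mul_apply, Matrix.transpose_apply, Matrix.of_apply, Matrix.cons_val',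
    Matrix.cons_val_zero, Matrix.cons_val_one, Matrix.cons_val]
  ring

lemma tr_mem {a b c : k} {B : Matrix (Fin 3) (Fin 3) k} (h2 : (2 : k) ≠ 0) (hB : B ∈ Fb a b c)
    (r : k) : tr r B ∈ Fb a b c := by
  obtain ⟨hs, ha, hb, hc⟩ := hB
  obtain ⟨h1, h2', h3⟩ := FB2.sym hs
  refine ⟨?_, ?_, ?_, ?_⟩
  · unfold tr
    rw [Matrix.transpose_mul, Matrix.transpose_mul, Matrix.transpose_transpose, hs,
      Matrix.mul_assoc]
  · rw [← ha]
    unfold ia
    simp only [tr, gg, Fin.sum_univ_three,
      Matrix.mul_apply, Matrix.transpose_apply, Matrix.of_apply, Matrix.cons_val',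
      Matrix.cons_val_zero, Matrix.cons_val_one, Matrix.cons_val]
    rw [h1, h2', h3]
    field_simp
    ring
  · rw [← hb]
    unfold ib
    simp only [tr, gg, Fin.sum_univ_three,
      Matrix.mul_apply, Matrix.transpose_apply, Matrix.of_apply, Matrix.cons_val',
      Matrix.cons_val_zero, Matrix.cons_val_one, Matrix.cons_val]
    rw [h1, h2', h3]
    field_simp
    ring
  · rw [← hc]
    unfold ic tr
    rw [Matrix.det_mul, Matrix.det_mul, Matrix.det_transpose]
    have : (gg r).det = -1 := by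
      simp [gg, Matrix.det_fin_three]
      field_simp
    rw [this]
    ring

/-- If `e_0` is isotropic and `e` is a root of the cubic, then `zz r 1` is isotropic for
`r = (B02 - e) / (2 B01)`. -/
lemma second {a b c e : k} {B : Matrix (Fin 3) (Fin 3) k} (h2 : (2 : k) ≠ 0)
    (hB : B ∈ Fb a b c) (h0 : B 0 0 = 0) (h1 : B 0 1 ≠ 0)
    (he : e ^ 3 + a * e ^ 2 + b * e + c = 0) : vl B ((B 0 2 - e) / (2 * B 0 1)) = 0 := by
  obtain ⟨hs, ha, hb, hc⟩ := hB
  rw [FB2.det3 hs, h0] at hc
  unfold ia at ha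
  unfold ib at hb
  rw [h0] at hb
  unfold vl
  rw [bil_eq B hs, h0]
  simp only [zz, Matrix.cons_val_zero, Matrix.cons_val_one, Matrix.cons_val]
  rw [← ha, ← hb, ← hc] at he
  field_simp
  linear_combination (-4 * B 0 1 ^ 2) * he

lemma root {e β γ : k} (hq : ∀ x : k, x ^ 2 + β * x + γ ≠ 0) (y : k)
    (hy : y ^ 3 + (β - e) * y ^ 2 + (γ - e * β) * y + -(e * γ) = 0) : y = e := by
  have h : (y - e) * (y ^ 2 + β * y + γ) = 0 := by linear_combination hy
  rcases mul_eq_zero.1 h with h | h
  · exact sub_eq_zero.1 h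
  · exact absurd h (hq y)

/-- `B01 ≠ 0` when `B00 = 0`. -/
lemma ne01 {e β γ : k} (hq : ∀ x : k, x ^ 2 + β * x + γ ≠ 0)
    {B : Matrix (Fin 3) (Fin 3) k} (hB : B ∈ Fb (β - e) (γ - e * β) (-(e * γ)))
    (h0 : B 0 0 = 0) : B 0 1 ≠ 0 := by
  intro h1
  obtain ⟨ea, eb, ec⟩ := FB2.dbl hB h0 h1
  have e1 : B 0 2 = e := by
    apply root hq
    rw [ea, eb, ec]
    ring
  rw [e1] at ea eb ec
  apply hq e
  have hb : B 1 1 = -β - e := by linear_combination ea
  rw [hb] at eb
  linear_combination eb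

/-- The incidence of a matrix and an isotropic line. -/
def Inc (B : Matrix (Fin 3) (Fin 3) k) : Option k → Prop
  | none => B 0 0 = 0
  | some r => vl B r = 0

lemma vl_zz (B : Matrix (Fin 3) (Fin 3) k) (hB : Bᵀ = B) (h2 : (2 : k) ≠ 0) (r s : k) :
    vl (tr r B) s = s ^ 4 * vl B (r + 1 / s) ∨ s = 0 := by
  by_cases hs : s = 0
  · exact Or.inr hs
  · left
    obtain ⟨h1, h2', h3⟩ := FB2.sym hB
    simp only [vl, tr, gg, bil, zz, Matrix.mulVec, dotProduct, Fin.sum_univ_three,
      Matrix.mul_apply, Matrix.transpose_apply, Matrix.of_apply, Matrix.cons_val',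
      Matrix.cons_val_zero, Matrix.cons_val_one, Matrix.cons_val]
    rw [h1, h2', h3]
    field_simp
    ring

lemma vl_zero (B : Matrix (Fin 3) (Fin 3) k) (hB : Bᵀ = B) (h2 : (2 : k) ≠ 0) (r : k) :
    vl (tr r B) 0 = B 0 0 := by
  obtain ⟨h1, h2', h3⟩ := FB2.sym hB
  simp only [vl, tr, gg, bil, zz, Matrix.mulVec, dotProduct, Fin.sum_univ_three,
    Matrix.mul_apply, Matrix.transpose_apply, Matrix.of_apply, Matrix.cons_val',
    Matrix.cons_val_zero, Matrix.cons_val_one, Matrix.cons_val]
  rw [h1, h2', h3]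
  field_simp
  ring

/-- A matrix with an isotropic line has another one. -/
lemma other {e β γ : k} (h2 : (2 : k) ≠ 0) (hq : ∀ x : k, x ^ 2 + β * x + γ ≠ 0)
    {B : Matrix (Fin 3) (Fin 3) k} (hB : B ∈ Fb (β - e) (γ - e * β) (-(e * γ)))
    (l : Option k) (hl : Inc B l) : ∃ l', l' ≠ l ∧ Inc B l' := by
  have hroot : e ^ 3 + (β - e) * e ^ 2 + (γ - e * β) * e + -(e * γ) = 0 := by ring
  rcases l with _ | r
  · exact ⟨some _, by simp, second h2 hB hl (ne01 hq hB hl) hroot⟩
  · have hB' := tr_mem h2 hB r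
    have h0 : tr r B 0 0 = 0 := by rw [tr00]; exact hl
    have h3 := second h2 hB' h0 (ne01 hq hB' h0) hroot
    generalize (tr r B 0 2 - e) / (2 * tr r B 0 1) = s at h3
    by_cases hs : s = 0
    · refine ⟨none, by simp, ?_⟩
      rw [hs, vl_zero B hB.1 h2] at h3
      exact h3
    · refine ⟨some (r + 1 / s), ?_, ?_⟩
      · intro h
        simp only [Option.some.injEq, add_eq_left, one_div, inv_eq_zero] at h
        exact hs h
      · rcases vl_zz B hB.1 h2 r s with h4 | h4
        · rw [h4] at h3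
          exact (mul_eq_zero.1 h3).resolve_left (pow_ne_zero 4 hs)
        · exact absurd h4 hs

lemma exists_inc (h2 : (2 : k) ≠ 0) {B : Matrix (Fin 3) (Fin 3) k} (hB : Bᵀ = B) (z : Fin 3 → k)
    (hz : z ≠ 0) (h1 : bil (AA k) z z = 0) (h3 : bil B z z = 0) : ∃ l, Inc B l := by
  have hA : 2 * (z 0 * z 2) + z 1 ^ 2 = 0 := by
    have := bil_eq (AA k) (by ext i j; fin_cases i <;> fin_cases j <;> rfl) z
    rw [h1] at this
    simp [AA] at this
    linear_combination -this
  by_cases h : z 2 = 0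
  · refine ⟨none, ?_⟩
    rw [h] at hA
    have h4 : z 1 = 0 := by
      have : z 1 ^ 2 = 0 := by linear_combination hA
      exact pow_eq_zero_iff (two_ne_zero) |>.1 this
    have h5 : z 0 ≠ 0 := by
      intro h5
      apply hz
      ext i
      fin_cases i
      · exact h5
      · exact h4
      · exact h
    rw [bil_eq B hB, h, h4] at h3
    have h6 : B 0 0 * z 0 ^ 2 = 0 := by linear_combination h3
    exact (mul_eq_zero.1 h6).resolve_right (pow_ne_zero 2 h5)
  · refine ⟨some (-(z 1) / (2 * z 2)), ?_⟩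
    have h5 : z 0 = -(z 1 ^ 2) / (2 * z 2) := by
      field_simp
      linear_combination hA
    rw [bil_eq B hB, h5] at h3
    change vl B _ = 0
    unfold vl
    rw [bil_eq B hB]
    simp only [zz, Matrix.cons_val_zero, Matrix.cons_val_one, Matrix.cons_val]
    field_simp at h3 ⊢
    linear_combination h3

end FB1

open FB1 in
theorem fb1_thm : FB1Stmt := by
  classical
  intro k _ _ h2 t ht
  have : Fintype k := Fintype.ofFinite k
  rw [Nat.card_eq_fintype_card]
  obtain ⟨e, β, γ, hq, rfl⟩ := ht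
  change 2 * {B : Matrix (Fin 3) (Fin 3) k | B ∈ Fb (β - e) (γ - e * β) (-(e * γ)) ∧
      ∃ z : Fin 3 → k, z ≠ 0 ∧ bil (AA k) z z = 0 ∧ bil B z z = 0}.ncard ≤ _
  set S : Finset (Matrix (Fin 3) (Fin 3) k) := Finset.univ.filter fun B =>
    B ∈ Fb (β - e) (γ - e * β) (-(e * γ)) ∧
      ∃ z : Fin 3 → k, z ≠ 0 ∧ bil (AA k) z z = 0 ∧ bil B z z = 0 with hS
  have hSn : {B : Matrix (Fin 3) (Fin 3) k | B ∈ Fb (β - e) (γ - e * β) (-(e * γ)) ∧
      ∃ z : Fin 3 → k, z ≠ 0 ∧ bil (AA k) z z = 0 ∧ bil B z z = 0}.ncard = S.card := by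
    rw [← Set.ncard_coe_finset]
    congr 1
    ext B
    simp [hS]
  rw [hSn]
  have key := Finset.card_mul_le_card_mul (s := S) (t := (Finset.univ : Finset (Option k)))
    (fun B l => Inc B l) (m := 2) (n := (Fintype.card k - 1) * Fintype.card k) (by
      intro B hB
      rw [hS, Finset.mem_filter] at hB
      obtain ⟨-, hB, z, hz, hz1, hz2⟩ := hB
      obtain ⟨l, hl⟩ := exists_inc h2 hB.1 z hz hz1 hz2
      obtain ⟨l', hne, hl'⟩ := other h2 hq hB l hl
      have : ({l, l'} : Finset (Option k)) ⊆ Finset.bipartiteAbove (fun B l => Inc B l)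
          Finset.univ B := by
        intro x hx
        rw [Finset.mem_bipartiteAbove]
        simp only [Finset.mem_insert, Finset.mem_singleton] at hx
        rcases hx with rfl | rfl
        · exact ⟨Finset.mem_univ _, hl⟩
        · exact ⟨Finset.mem_univ _, hl'⟩
      calc 2 = ({l, l'} : Finset (Option k)).card := (Finset.card_pair hne.symm).symm
        _ ≤ _ := Finset.card_le_card this) (by
      intro l _
      -- at most `q (q - 1)` matrices
      have base : ∀ T : Finset (Matrix (Fin 3) (Fin 3) k), (∀ B ∈ T,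
          B ∈ Fb (β - e) (γ - e * β) (-(e * γ)) ∧ B 0 0 = 0) →
          T.card ≤ (Fintype.card k - 1) * Fintype.card k := by
        intro T hT
        have h1 : T.card ≤ ((Finset.univ.erase (0 : k)) ×ˢ (Finset.univ : Finset k)).card := by
          apply Finset.card_le_card_of_injOn (fun B => (B 0 1, B 0 2))
          · intro B hB
            have := hT B hB
            simp [ne01 hq this.1 this.2]
          · intro B hB B' hB' h
            simp only [Prod.mk.injEq] at h
            have u := hT B hB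
            have u' := hT B' hB'
            exact FB2.inj0 h2 u.1 u'.1 u.2 u'.2 (ne01 hq u.1 u.2) h.1 h.2
        rw [Finset.card_product, Finset.card_erase_of_mem (Finset.mem_univ _),
          Finset.card_univ] at h1
        exact h1
      rcases l with _ | r
      · apply base
        intro B hB
        rw [Finset.mem_bipartiteBelow, hS, Finset.mem_filter] at hB
        exact ⟨hB.1.2.1, hB.2⟩
      · rw [← Finset.card_image_of_injective _ (gg_inj h2 r)]
        apply base
        intro B hB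
        rw [Finset.mem_image] at hB
        obtain ⟨B', hB', rfl⟩ := hB
        rw [Finset.mem_bipartiteBelow, hS, Finset.mem_filter] at hB'
        exact ⟨tr_mem h2 hB'.1.2.1 r, by rw [tr00]; exact hB'.2⟩)
  rw [Finset.card_univ, Fintype.card_option] at key
  obtain ⟨q, hq'⟩ : ∃ q, Fintype.card k = q + 1 := ⟨Fintype.card k - 1, by
      have := Fintype.card_pos (α := k); omega⟩
  rw [hq'] at key ⊢
  have h1 : (q + 1) ^ 3 = (q + 1 + 1) * (q * (q + 1)) + (q + 1) := by ring
  rw [h1, Nat.add_sub_cancel]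
  rw [Nat.add_sub_cancel] at key
  linarith

end Pool.RZ
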