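import Pool.Agent.H77.RZ.Stmts

/-!
# RZ, module FB2: the fibre over a cubic without root

Matrices with `B00 ≠ 0` are determined by `B01` and by the entries `11` and `12` after the
unipotent normalisation `B01 = 0`; the entry `12` is nonzero, since `B00 e² = - f(d)`.
Matrices with `B00 = 0` are determined by `B01 ≠ 0` and `B02`.
-/

set_option autoImplicit false

namespace Pool.RZ

open Polynomial Matrix Pool.AVR Pool.AVS

namespace FB2

variable {k : Type} [Field k]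

/-- The entry `11` of the normalised matrix. -/
noncomputable def dl (B : Matrix (Fin 3) (Fin 3) k) : k := B 1 1 - B 0 1 ^ 2 / B 0 0

/-- The entry `12` of the normalised matrix. -/
noncomputable def ep (B : Matrix (Fin 3) (Fin 3) k) : k :=
  B 1 2 + (B 0 1 / B 0 0) * (B 1 1 - B 0 2) - B 0 1 ^ 3 / B 0 0 ^ 2

lemma sym {B : Matrix (Fin 3) (Fin 3) k} (h : Bᵀ = B) :
    B 1 0 = B 0 1 ∧ B 2 0 = B 0 2 ∧ B 2 1 = B 1 2 :=
  ⟨congrFun (congrFun h 0) 1, congrFun (congrFun h 0) 2, congrFun (congrFun h 1) 2⟩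

lemma det3 {B : Matrix (Fin 3) (Fin 3) k} (h : Bᵀ = B) :
    ic B = B 0 0 * B 1 1 * B 2 2 - B 0 0 * B 1 2 ^ 2 - B 0 1 ^ 2 * B 2 2 +
      2 * B 0 1 * B 0 2 * B 1 2 - B 0 2 ^ 2 * B 1 1 := by
  obtain ⟨h1, h2, h3⟩ := sym h
  unfold ic
  rw [Matrix.det_fin_three, h1, h2, h3]
  ring

/-- The key identity. -/
lemma key {a b c : k} {B : Matrix (Fin 3) (Fin 3) k} (h2 : (2 : k) ≠ 0) (hB : B ∈ Fb a b c)
    (h0 : B 0 0 ≠ 0) : B 0 0 * ep B ^ 2 = -(dl B ^ 3 + a * dl B ^ 2 + b * dl B + c) := by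
  obtain ⟨hs, ha, hb, hc⟩ := hB
  rw [det3 hs] at hc
  unfold ia at ha
  unfold ib at hb
  unfold ep dl
  rw [← ha, ← hb, ← hc]
  field_simp
  ring

lemma ext3 {B B' : Matrix (Fin 3) (Fin 3) k} (h : Bᵀ = B) (h' : B'ᵀ = B')
    (h00 : B 0 0 = B' 0 0) (h01 : B 0 1 = B' 0 1) (h02 : B 0 2 = B' 0 2)
    (h11 : B 1 1 = B' 1 1) (h12 : B 1 2 = B' 1 2) (h22 : B 2 2 = B' 2 2) : B = B' := by
  obtain ⟨h1, h2, h3⟩ := sym h
  obtain ⟨h1', h2', h3'⟩ := sym h'
  ext i j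
  fin_cases i <;> fin_cases j <;> simp [*]

/-- Matrices with `B00 = 0`, `B01 ≠ 0` are determined by `B01` and `B02`. -/
lemma inj0 {a b c : k} {B B' : Matrix (Fin 3) (Fin 3) k} (h2 : (2 : k) ≠ 0) (hB : B ∈ Fb a b c)
    (hB' : B' ∈ Fb a b c) (h0 : B 0 0 = 0) (h0' : B' 0 0 = 0) (h1 : B 0 1 ≠ 0)
    (e1 : B 0 1 = B' 0 1) (e2 : B 0 2 = B' 0 2) : B = B' := by
  obtain ⟨hs, ha, hb, hc⟩ := hB
  obtain ⟨hs', ha', hb', hc'⟩ := hB'
  rw [det3 hs] at hc
  rw [det3 hs'] at hc'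
  unfold ia at ha ha'
  unfold ib at hb hb'
  rw [h0] at hb hc
  rw [h0', ← e1, ← e2] at hc' hb'
  rw [← e2] at ha'
  have e11 : B 1 1 = B' 1 1 := by linear_combination ha' - ha
  rw [← e11] at hb' hc'
  have e12 : B 1 2 = B' 1 2 := by
    have : (2 * B 0 1) * B 1 2 = (2 * B 0 1) * B' 1 2 := by linear_combination hb' - hb
    exact mul_left_cancel₀ (mul_ne_zero h2 h1) this
  rw [← e12] at hc'
  have e22 : B 2 2 = B' 2 2 := by
    have : (B 0 1 ^ 2) * B 2 2 = (B 0 1 ^ 2) * B' 2 2 := by linear_combination hc' - hc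
    exact mul_left_cancel₀ (pow_ne_zero 2 h1) this
  exact ext3 hs hs' (h0.trans h0'.symm) e1 e2 e11 e12 e22

/-- Matrices with `B00 = B01 = 0`: the cubic has a double root. -/
lemma dbl {a b c : k} {B : Matrix (Fin 3) (Fin 3) k} (hB : B ∈ Fb a b c)
    (h0 : B 0 0 = 0) (h1 : B 0 1 = 0) :
    a = -(2 * B 0 2 + B 1 1) ∧ b = 2 * B 0 2 * B 1 1 + B 0 2 ^ 2 ∧ c = -(B 0 2 ^ 2 * B 1 1) := by
  obtain ⟨hs, ha, hb, hc⟩ := hB
  rw [det3 hs] at hc
  unfold ia at ha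
  unfold ib at hb
  rw [h0, h1] at hc hb
  refine ⟨ha.symm, ?_, ?_⟩
  · linear_combination -hb
  · linear_combination -hc

/-- Matrices with `B00 ≠ 0` are determined by `B01`, `dl`, `ep`, if the cubic has no root. -/
lemma inj1 {a b c : k} {B B' : Matrix (Fin 3) (Fin 3) k} (h2 : (2 : k) ≠ 0) (hB : B ∈ Fb a b c)
    (hB' : B' ∈ Fb a b c) (h0 : B 0 0 ≠ 0) (h0' : B' 0 0 ≠ 0) (hep : ep B ≠ 0)
    (e1 : B 0 1 = B' 0 1) (e2 : dl B = dl B') (e3 : ep B = ep B') : B = B' := by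
  have k1 := key h2 hB h0
  have k2 := key h2 hB' h0'
  have e00 : B 0 0 = B' 0 0 := by
    rw [← e2, ← e3] at k2
    exact mul_right_cancel₀ (pow_ne_zero 2 hep) (k1.trans k2.symm)
  obtain ⟨hs, ha, hb, hc⟩ := hB
  obtain ⟨hs', ha', hb', hc'⟩ := hB'
  unfold ia at ha ha'
  unfold ib at hb hb'
  unfold dl at e2
  unfold ep at e3
  rw [← e1, ← e00] at e2 e3 hb'
  have e11 : B 1 1 = B' 1 1 := by linear_combination e2
  rw [← e11] at ha' hb' e3
  have e02 : B 0 2 = B' 0 2 := by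
    have : 2 * B 0 2 = 2 * B' 0 2 := by linear_combination ha' - ha
    exact mul_left_cancel₀ h2 this
  rw [← e02] at hb' e3
  have e12 : B 1 2 = B' 1 2 := by linear_combination e3
  rw [← e12] at hb'
  have e22 : B 2 2 = B' 2 2 := by
    have : B 2 2 * B 0 0 = B' 2 2 * B 0 0 := by linear_combination hb' - hb
    exact mul_right_cancel₀ h0 this
  exact ext3 hs hs' e00 e1 e02 e11 e12 e22

end FB2

open FB2 in
theorem fb2_thm : FB2Stmt := by
  classical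
  intro k _ _ h2 t ht
  have : Fintype k := Fintype.ofFinite k
  rw [Nat.card_eq_fintype_card]
  obtain ⟨a, b, c⟩ := t
  change (Fb a b c).ncard ≤ _
  have ht' : ∀ x : k, x ^ 3 + a * x ^ 2 + b * x + c ≠ 0 := ht
  -- the codomain
  let T : Finset ((k × k × k) ⊕ (k × k)) :=
    Finset.disjSum ((Finset.univ : Finset k) ×ˢ ((Finset.univ : Finset k) ×ˢ
      (Finset.univ.erase (0 : k)))) ((Finset.univ.erase (0 : k)) ×ˢ (Finset.univ : Finset k))
  have hT : T.card = Fintype.card k ^ 3 - Fintype.card k := by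
    simp only [T, Finset.card_disjSum, Finset.card_product, Finset.card_univ,
      Finset.card_erase_of_mem (Finset.mem_univ _)]
    obtain ⟨q, hq⟩ : ∃ q, Fintype.card k = q + 1 := ⟨Fintype.card k - 1, by
      have := Fintype.card_pos (α := k); omega⟩
    rw [hq]
    have h1 : (q + 1) ^ 3 = ((q + 1) * ((q + 1) * q) + q * (q + 1)) + (q + 1) := by ring
    rw [h1, Nat.add_sub_cancel, Nat.add_sub_cancel]
  let φ : Matrix (Fin 3) (Fin 3) k → (k × k × k) ⊕ (k × k) := fun B =>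
    if B 0 0 = 0 then Sum.inr (B 0 1, B 0 2) else Sum.inl (B 0 1, dl B, ep B)
  have hep : ∀ B ∈ Fb a b c, B 0 0 ≠ 0 → ep B ≠ 0 := by
    intro B hB h0 he
    have := key h2 hB h0
    rw [he] at this
    apply ht' (dl B)
    linear_combination this
  have h01 : ∀ B ∈ Fb a b c, B 0 0 = 0 → B 0 1 ≠ 0 := by
    intro B hB h0 h1
    obtain ⟨ea, eb, ec⟩ := dbl hB h0 h1
    apply ht' (B 0 2)
    rw [ea, eb, ec]
    ring
  rw [← hT, ← Set.ncard_coe_finset]
  apply Set.ncard_le_ncard_of_injOn φ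
  · intro B hB
    simp only [φ, T]
    split_ifs with h0
    · simp [h01 B hB h0]
    · simp [hep B hB h0]
  · intro B hB B' hB' h
    simp only [φ] at h
    split_ifs at h with h0 h0' h0'
    · simp only [Sum.inr.injEq, Prod.mk.injEq] at h
      exact inj0 h2 hB hB' h0 h0' (h01 B hB h0) h.1 h.2
    · simp only [Sum.inl.injEq, Prod.mk.injEq] at h
      exact inj1 h2 hB hB' h0 h0' (hep B hB h0) h.1 h.2.1 h.2.2

end Pool.RZ
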